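import Pool.Agent.H.MP_bd4c56_lc.B

/-! Every modular real-time trellis automaton is equivalent to a modular one with at most two
types of processors. -/

namespace Pool.Agent.Results.MP_bd4c56_lc.Yes

open Pool.Agent.H.MP_bd4c56_lc

/-- `out T g ι w t i j` is the output of the node `(i, j)` lying `t` levels above the input level
(`none` is the symbol λ). -/
def out {S D G : Type} (T : ℕ → ℕ → D) (g : D → Option G → Option G → G) (ι : S → G)
    (w : List S) : ℕ → ℕ → ℕ → G
  | 0, i, j => g (T i j) none (w[i]?.map ι)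
  | t + 1, i, j => g (T i j) (some (out T g ι w t i (j + 1))) (some (out T g ι w t (i + 1) j))

/-- The accepted language. -/
def lang {S D G : Type} (T : ℕ → ℕ → D) (g : D → Option G → Option G → G) (ι : S → G)
    (G0 : Set G) : Set (List S) :=
  {w | w ≠ [] ∧ out T g ι w (w.length - 1) 0 0 ∈ G0}

theorem out_local {S D G : Type} (T : ℕ → ℕ → D) (g : D → Option G → Option G → G) (ι : S → G)
    (w w' : List S) : ∀ t i j i' j',
      (∀ a b, a + b ≤ t → T (i + a) (j + b) = T (i' + a) (j' + b)) →
      (∀ k ≤ t, w[i + k]? = w'[i' + k]?) → out T g ι w t i j = out T g ι w' t i' j' := by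
  intro t
  induction t with
  | zero =>
    intro i j i' j' h1 h2
    have e1 := h1 0 0 le_rfl
    have e2 := h2 0 le_rfl
    simp only [add_zero] at e1 e2
    rw [out, out, e1, e2]
  | succ t ih =>
    intro i j i' j' h1 h2
    have e1 := h1 0 0 (by omega)
    simp only [add_zero] at e1
    rw [out, out, e1, ih i (j + 1) i' (j' + 1), ih (i + 1) j (i' + 1) j']
    · intro a b hab
      rw [add_assoc, add_assoc]
      exact h1 _ _ (by omega)
    · intro k hk
      rw [add_assoc, add_assoc]
      exact h2 _ (by omega)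
    · intro a b hab
      rw [add_assoc, add_assoc]
      exact h1 _ _ (by omega)
    · intro k hk
      exact h2 _ (by omega)

section sim

variable {S D G : Type} (T : ℕ → ℕ → D) (g : D → Option G → Option G → G) (ι : S → G)
  (B : ℕ → ℕ → Bool) (c : ℕ)

abbrev St (S G : Type) (c : ℕ) : Type :=
  Fin (c + 1) × (Fin (c + 1) → Fin (c + 1) → Bool) × (Fin (c + 1) → Option S) × Option G

def st (w : List S) (t i j : ℕ) : St S G c :=
  (⟨min t c, by omega⟩, fun a b => if (a : ℕ) + b ≤ min t c then B (i + a) (j + b) else false,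
    fun k => if t ≤ c ∧ (k : ℕ) ≤ t then w[i + k]? else none,
    if c ≤ t then some (out T g ι w t i j) else none)

theorem st_iff {w w' : List S} {t i j t' i' j' : ℕ} :
    st T g ι B c w t i j = st T g ι B c w' t' i' j' ↔ min t c = min t' c ∧
      (∀ a b, a + b ≤ min t c → B (i + a) (j + b) = B (i' + a) (j' + b)) ∧
      (∀ k : Fin (c + 1), (if t ≤ c ∧ (k : ℕ) ≤ t then w[i + k]? else none) =
        if t' ≤ c ∧ (k : ℕ) ≤ t' then w'[i' + k]? else none) ∧
      (c ≤ t → out T g ι w t i j = out T g ι w' t' i' j') := by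
  simp only [st, Prod.mk.injEq, Fin.mk.injEq, funext_iff]
  refine and_congr_right fun h => and_congr ⟨fun e a b hab => ?_, fun e a b => ?_⟩
    (and_congr Iff.rfl ⟨fun e hc => ?_, fun e => ?_⟩)
  · have := e ⟨a, by omega⟩ ⟨b, by omega⟩
    simpa only [← h, hab, if_true] using this
  · rw [← h]
    split_ifs with h1
    · exact e _ _ h1
    · rfl
  · have : c ≤ t' := by omega
    simpa [hc, this] using e
  · by_cases hc : c ≤ t
    · have : c ≤ t' := by omega
      simp [hc, this, e hc]
    · have : ¬c ≤ t' := by omega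
      simp [hc, this]

end sim

section det

variable {S D G : Type} {T : ℕ → ℕ → D} {g : D → Option G → Option G → G} {ι : S → G}
  {B : ℕ → ℕ → Bool} {c : ℕ}
  (hB : ∀ i j i' j', (∀ a b, a + b ≤ c → B (i + a) (j + b) = B (i' + a) (j' + b)) →
    ∀ a b, a + b ≤ c → T (i + a) (j + b) = T (i' + a) (j' + b))

include hB in
theorem det0 {w w' : List S} {i j i' j' : ℕ} (h1 : B i j = B i' j') (h2 : w[i]? = w'[i']?) :
    st T g ι B c w 0 i j = st T g ι B c w' 0 i' j' := by
  have e : ∀ a b, a + b ≤ min 0 c → B (i + a) (j + b) = B (i' + a) (j' + b) := by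
    intro a b hab
    have h3 : a = 0 := by omega
    have h4 : b = 0 := by omega
    subst h3 h4
    exact h1
  rw [st_iff]
  refine ⟨rfl, e, fun k => ?_, fun hc => ?_⟩
  · split_ifs with h
    · have : (k : ℕ) = 0 := by omega
      rw [this]; exact h2
    · rfl
  · refine out_local _ _ _ _ _ _ _ _ _ _ (fun a b hab => hB _ _ _ _ (fun a b hab => e a b ?_) a b ?_)
      fun k hk => ?_
    · omega
    · omega
    · have : k = 0 := by omega
      rw [this]; exact h2

include hB in
theorem det1 {w w' : List S} {t t' i j i' j' : ℕ} (h0 : B i j = B i' j')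
    (h1 : st T g ι B c w t i (j + 1) = st T g ι B c w' t' i' (j' + 1))
    (h2 : st T g ι B c w t (i + 1) j = st T g ι B c w' t' (i' + 1) j') :
    st T g ι B c w (t + 1) i j = st T g ι B c w' (t' + 1) i' j' := by
  rw [st_iff] at h1 h2 ⊢
  obtain ⟨a1, a2, a3, a4⟩ := h1
  obtain ⟨-, b2, b3, b4⟩ := h2
  have e : ∀ a b, a + b ≤ min (t + 1) c → B (i + a) (j + b) = B (i' + a) (j' + b) := by
    intro a b hab
    rcases b with _ | b
    · rcases a with _ | a
      · exact h0
      · have := b2 a 0 (by omega)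
        rwa [add_assoc, add_assoc, add_comm 1 a] at this
    · have := a2 a b (by omega)
      rwa [add_assoc, add_assoc, add_comm 1 b] at this
  have e2 : t < c → ∀ k ≤ t + 1, w[i + k]? = w'[i' + k]? := by
    intro ht k hk
    have htt : t' = t := by omega
    subst htt
    rcases k with _ | k
    · have := a3 ⟨0, by omega⟩
      simpa [ht.le] using this
    · have := b3 ⟨k, by omega⟩
      have hk' : k ≤ t' := by omega
      simp only [ht.le, hk', and_self, if_true] at this
      rwa [add_assoc, add_assoc, add_comm 1 k] at this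
  refine ⟨by omega, e, fun k => ?_, fun hc => ?_⟩
  · by_cases ht : t < c
    · have htt : t' = t := by omega
      subst htt
      split_ifs with h
      · exact e2 ht _ h.2
      · rfl
    · rw [if_neg (by omega), if_neg (by omega)]
  · have hT := hB _ _ _ _ fun a b hab => e a b (by omega)
    by_cases ht : t < c
    · have htt : t' = t := by omega
      subst htt
      exact out_local _ _ _ _ _ _ _ _ _ _ (fun a b hab => hT a b (by omega)) (e2 ht)
    · have := hT 0 0 (by omega)
      simp only [add_zero] at this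
      rw [out, out, this, a4 (by omega), b4 (by omega)]

end det

theorem result (S D G : Type) [Fintype S] [Fintype D] [Fintype G] (ι : S ↪ G) (T : ℕ → ℕ → D)
    (hT : Modular T) (g : D → Option G → Option G → G) (G0 : Set G) :
    ∃ (D' G' : Type) (_ : Fintype D') (_ : Fintype G') (ι' : S ↪ G') (T' : ℕ → ℕ → D')
      (g' : D' → Option G' → Option G' → G') (G0' : Set G'), Modular T' ∧
      (∃ g1 g2, ∀ d, g' d = g1 ∨ g' d = g2) ∧ lang T' g' ι' G0' = lang T g ι G0 := by
  classical
  obtain ⟨E, _, T', β, c, hM, hB⟩ := exists_bits hT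
  let B : ℕ → ℕ → Bool := fun i j => β (T' i j)
  let s := st T g ι B c
  let R : Bool → Option (S ⊕ St S G c) → Option (S ⊕ St S G c) → St S G c → Prop :=
    fun e x y z => ∃ (w : List S) (i j : ℕ), B i j = e ∧
      ((x = none ∧ y = w[i]?.map Sum.inl ∧ z = s w 0 i j) ∨
      ∃ t, x = some (.inr (s w t i (j + 1))) ∧ y = some (.inr (s w t (i + 1) j)) ∧
        z = s w (t + 1) i j)
  have hR : ∀ e x y z z', R e x y z → R e x y z' → z = z' := by
    rintro e x y z z' ⟨w, i, j, h0, h⟩ ⟨w', i', j', h0', h'⟩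
    have hb : B i j = B i' j' := h0.trans h0'.symm
    rcases h with ⟨h1, h2, rfl⟩ | ⟨t, h1, h2, rfl⟩ <;>
      rcases h' with ⟨h1', h2', rfl⟩ | ⟨t', h1', h2', rfl⟩
    · exact det0 hB hb (Option.map_injective Sum.inl_injective (h2.symm.trans h2'))
    · rw [h1] at h1'; cases h1'
    · rw [h1] at h1'; cases h1'
    · rw [h1] at h1'
      rw [h2] at h2'
      exact det1 hB hb (Sum.inr.inj (Option.some.inj h1')) (Sum.inr.inj (Option.some.inj h2'))
  let γ : Bool → Option (S ⊕ St S G c) → Option (S ⊕ St S G c) → S ⊕ St S G c :=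
    fun e x y => .inr (if h : ∃ z, R e x y z then h.choose else s [] 0 0 0)
  have hγ : ∀ e x y z, R e x y z → γ e x y = .inr z := by
    intro e x y z h
    have hh : ∃ z, R e x y z := ⟨z, h⟩
    simp only [γ, dif_pos hh]
    rw [hR _ _ _ _ _ hh.choose_spec h]
  have key : ∀ w t i j, out T' (fun d => γ (β d)) Sum.inl w t i j = .inr (s w t i j) := by
    intro w t
    induction t with
    | zero => intro i j; exact hγ _ _ _ _ ⟨w, i, j, rfl, Or.inl ⟨rfl, rfl, rfl⟩⟩
    | succ t ih =>
      intro i j
      rw [out, ih, ih]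
      exact hγ _ _ _ _ ⟨w, i, j, rfl, Or.inr ⟨t, rfl, rfl, rfl⟩⟩
  refine ⟨E, S ⊕ St S G c, inferInstance, inferInstance, ⟨Sum.inl, Sum.inl_injective⟩, T',
    fun d => γ (β d), {z | ∃ w ∈ lang T g ι G0, z = .inr (s w (w.length - 1) 0 0)}, hM,
    ⟨γ true, γ false, fun d => by cases h : β d <;> simp [h]⟩, ?_⟩
  ext w
  refine and_congr_right fun hw => ?_
  change out T' (fun d => γ (β d)) Sum.inl w _ 0 0 ∈ _ ↔ _
  rw [key]
  refine ⟨fun ⟨w', h1, h2⟩ => ?_, fun h => ⟨w, ⟨hw, h⟩, rfl⟩⟩
  obtain ⟨a1, -, a3, a4⟩ := (st_iff _ _ _ _ _).1 (Sum.inr.inj h2)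
  by_cases hc : c ≤ w.length - 1
  · rw [a4 hc]; exact h1.2
  · have e : w'.length - 1 = w.length - 1 := by omega
    rw [out_local T g ι w w' _ 0 0 0 0 (fun _ _ _ => rfl), ← e]
    · exact h1.2
    · intro k hk
      have := a3 ⟨k, by omega⟩
      have h3 : w.length - 1 ≤ c := by omega
      simpa only [e, h3, hk, and_self, if_true] using this

end Pool.Agent.Results.MP_bd4c56_lc.Yes
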